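import Pool.Agent.helper32.Cant.Basic

set_option autoImplicit false

/-! # module CNT: counting digit blocks (exponential supermartingale) -/

namespace Pool.Agent.helper32.Cant

open Finset

section cntm

variable {Ω : Type} [Fintype Ω] {α : Type}

omit [Fintype Ω] in
private theorem cnt_ref {X : ℕ → Ω → α} {L : ℕ} (hX : ∀ l < L, Ref (X l) (X (l + 1)))
    {a b : ℕ} (hab : a ≤ b) (hb : b ≤ L) : Ref (X a) (X b) := by
  induction b, hab using Nat.le_induction with
  | base => intro ω ω' h; exact h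
  | succ n hn ih =>
    intro ω ω' h
    exact ih (by omega) ω ω' (hX n (by omega) ω ω' h)

theorem few_bound {μ : Ω → ℝ} (hμ : IsProb μ) (L : ℕ) (X : ℕ → Ω → α)
    (hX : ∀ l < L, Ref (X l) (X (l + 1))) (I : ℕ → Ω → ℝ) (hI : ∀ l ω, I l ω = 0 ∨ I l ω = 1)
    (hIm : ∀ l < L, ∀ ω ω', X l ω = X l ω' → I l ω = I l ω') (m : ℝ) (hm : 1 ≤ m)
    (h0 : ∀ l < L, ∀ ω, 0 < μ ω → I l ω = 0 →
      ce μ (X l) (fun y => √(pm μ (X l) y / pm μ (X (l + 1)) y)) ω ≤ 2)
    (h1 : ∀ l < L, ∀ ω, 0 < μ ω →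
      ce μ (X l) (fun y => √(pm μ (X l) y / pm μ (X (l + 1)) y)) ω ≤ √m)
    (S : Ω → Prop) (B : ℝ) (hB : 0 ≤ B)
    (hS : ∀ ω, S ω → 0 < μ ω → pm μ (X L) ω ≤ B * pm μ (X 0) ω) (N : ℕ) :
    ex μ (fun ω => ind (S ω ∧ ∑ l ∈ range L, I l ω < N)) ≤ 2 ^ L * √m ^ N * √B := by
  classical
  have hsm1 : 1 ≤ √m := by rw [Real.one_le_sqrt]; exact hm
  have hsm : 0 < √m := by linarith
  set r : ℕ → Ω → ℝ := fun l ω => √(pm μ (X l) ω / pm μ (X (l + 1)) ω) with hr
  set s : ℕ → Ω → ℝ := fun l ω => if I l ω = 0 then 2 else √m with hs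
  have hs0 : ∀ l ω, 0 < s l ω := by
    intro l ω
    simp only [hs]
    split_ifs
    · norm_num
    · exact hsm
  have hr0 : ∀ l ω, 0 ≤ r l ω := fun l ω => Real.sqrt_nonneg _
  -- the supermartingale
  set M : ℕ → Ω → ℝ := fun l ω => ∏ j ∈ range l, r j ω / s j ω with hM
  have hM0 : ∀ l ω, 0 ≤ M l ω := fun l ω =>
    prod_nonneg fun j _ => div_nonneg (hr0 _ _) (hs0 _ _).le
  have hMm : ∀ l < L, ∀ ω ω', X l ω = X l ω' → M l ω = M l ω' := by
    intro l hl ω ω' h
    refine prod_congr rfl fun j hj => ?_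
    have hjl := mem_range.1 hj
    have e1 : X j ω = X j ω' := cnt_ref hX hjl.le hl.le ω ω' h
    have e2 : X (j + 1) ω = X (j + 1) ω' := cnt_ref hX (by omega : j + 1 ≤ l) hl.le ω ω' h
    simp only [hr, hs]
    rw [pm_eq e1, pm_eq e2, hIm j (by omega) ω ω' e1]
  have hMex : ∀ l ≤ L, ex μ (M l) ≤ 1 := by
    intro l
    induction l with
    | zero =>
      intro _
      have : M 0 = fun _ => (1 : ℝ) := by funext ω; simp [hM]
      rw [this, ex_const hμ]
    | succ l ih =>
      intro hl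
      have hlL : l < L := by omega
      have e1 : M (l + 1) = fun ω => (M l ω / s l ω) * r l ω := by
        funext ω
        simp only [hM, prod_range_succ]
        ring
      rw [e1, ← ex_mul_ce hμ.1 (X l) (g := fun ω => M l ω / s l ω) ?_ (r l)]
      · refine le_trans (ex_mono hμ.1 fun ω hω => ?_) (ih hlL.le)
        have h2 : ce μ (X l) (r l) ω ≤ s l ω := by
          simp only [hs]
          split_ifs with h
          · exact h0 l hlL ω hω h
          · exact h1 l hlL ω hω
        calc M l ω / s l ω * ce μ (X l) (r l) ω ≤ M l ω / s l ω * s l ω :=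
              mul_le_mul_of_nonneg_left h2 (div_nonneg (hM0 _ _) (hs0 _ _).le)
          _ = M l ω := div_mul_cancel₀ _ (hs0 _ _).ne'
      · intro ω ω' h
        show M l ω / s l ω = M l ω' / s l ω'
        rw [hMm l hlL ω ω' h]
        simp only [hs]
        rw [hIm l hlL ω ω' h]
  -- the product of the `r`
  have hrprod : ∀ l ≤ L, ∀ ω, 0 < μ ω →
      ∏ j ∈ range l, r j ω = √(pm μ (X 0) ω / pm μ (X l) ω) := by
    intro l
    induction l with
    | zero =>
      intro _ ω hω
      simp [div_self (pm_pos hμ.1 (X 0) hω).ne']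
    | succ l ih =>
      intro hl ω hω
      rw [prod_range_succ, ih (by omega) ω hω]
      simp only [hr]
      rw [← Real.sqrt_mul (div_nonneg (pm_nonneg hμ.1 _ _) (pm_nonneg hμ.1 _ _))]
      congr 1
      have h3 := (pm_pos hμ.1 (X l) hω).ne'
      have h4 := (pm_pos hμ.1 (X (l + 1)) hω).ne'
      field_simp
  -- the product of the `s`
  have hsprod : ∀ ω, ∑ l ∈ range L, I l ω < N → ∏ j ∈ range L, s j ω ≤ 2 ^ L * √m ^ N := by
    intro ω hω
    set i : ℕ → ℕ := fun l => if I l ω = 0 then 0 else 1 with hi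
    have hsum : ((∑ l ∈ range L, i l : ℕ) : ℝ) = ∑ l ∈ range L, I l ω := by
      push_cast
      refine sum_congr rfl fun l _ => ?_
      simp only [hi]
      rcases hI l ω with h | h <;> simp [h]
    have hlt : ∑ l ∈ range L, i l ≤ N := by
      have : ((∑ l ∈ range L, i l : ℕ) : ℝ) < N := by rw [hsum]; exact hω
      exact (Nat.cast_lt.1 this).le
    calc ∏ j ∈ range L, s j ω ≤ ∏ j ∈ range L, (2 * √m ^ (i j)) := by
          refine prod_le_prod (fun j _ => (hs0 _ _).le) fun j _ => ?_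
          simp only [hs, hi]
          split_ifs
          · simp
          · rw [pow_one]; linarith
      _ = 2 ^ L * √m ^ (∑ l ∈ range L, i l) := by
          rw [prod_mul_distrib, prod_const, card_range, prod_pow_eq_pow_sum]
      _ ≤ 2 ^ L * √m ^ N := by
          refine mul_le_mul_of_nonneg_left (pow_le_pow_right₀ hsm1 hlt) (by positivity)
  -- conclusion
  have key : ∀ ω, 0 < μ ω → ind (S ω ∧ ∑ l ∈ range L, I l ω < N)
      ≤ (2 ^ L * √m ^ N * √B) * M L ω := by
    intro ω hω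
    by_cases hE : S ω ∧ ∑ l ∈ range L, I l ω < N
    · rw [ind_of hE]
      obtain ⟨hSω, hN⟩ := hE
      have hp0 := pm_pos hμ.1 (X 0) hω
      have hpL := pm_pos hμ.1 (X L) hω
      have hBpos : 0 < B := by
        by_contra hc
        have : B = 0 := le_antisymm (not_lt.1 hc) hB
        have h5 := hS ω hSω hω
        rw [this, zero_mul] at h5
        linarith
      have hsB : 0 < √B := Real.sqrt_pos.2 hBpos
      have h6 : 1 ≤ √B * ∏ j ∈ range L, r j ω := by
        rw [hrprod L le_rfl ω hω, ← Real.sqrt_mul hB, Real.one_le_sqrt]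
        rw [← mul_div_assoc, le_div_iff₀ hpL, one_mul]
        exact hS ω hSω hω
      have h7 := hsprod ω hN
      have h8 : 0 < ∏ j ∈ range L, s j ω := prod_pos fun j _ => hs0 _ _
      have h9 : M L ω = (∏ j ∈ range L, r j ω) / ∏ j ∈ range L, s j ω := by
        simp only [hM]
        rw [prod_div_distrib]
      rw [h9, ← mul_div_assoc, le_div_iff₀ h8, one_mul]
      calc ∏ j ∈ range L, s j ω ≤ 2 ^ L * √m ^ N := h7
        _ = 2 ^ L * √m ^ N * 1 := by ring
        _ ≤ 2 ^ L * √m ^ N * (√B * ∏ j ∈ range L, r j ω) :=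
            mul_le_mul_of_nonneg_left h6 (by positivity)
        _ = 2 ^ L * √m ^ N * √B * ∏ j ∈ range L, r j ω := by ring
    · rw [ind_of_not hE]
      exact mul_nonneg (by positivity) (hM0 _ _)
  calc ex μ (fun ω => ind (S ω ∧ ∑ l ∈ range L, I l ω < N))
      ≤ ex μ (fun ω => (2 ^ L * √m ^ N * √B) * M L ω) := ex_mono hμ.1 key
    _ = (2 ^ L * √m ^ N * √B) * ex μ (M L) := ex_smul _ _ _
    _ ≤ (2 ^ L * √m ^ N * √B) * 1 :=
        mul_le_mul_of_nonneg_left (hMex L le_rfl) (by positivity)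
    _ = 2 ^ L * √m ^ N * √B := mul_one _

end cntm

end Pool.Agent.helper32.Cant
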