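import Pool.Agent.helper32.Cant.Defs

set_option autoImplicit false

namespace Pool.Agent.helper32.Cant

/-- the cells which are met -/
noncomputable def Ycard {n : ℕ} (c : Cfg n) : ℕ := (c.G.image (fun x => yi c x / 3 ^ n)).card

end Pool.Agent.helper32.Cant
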