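import Pool.Agent.helper32.Cant.Basic
import Pool.Agent.helper30.Cant.YCARD

set_option autoImplicit false

/-! # module LAM1: the logarithmic density -/

namespace Pool.Agent.helper32.Cant

open Finset

private theorem lam1_prob {n : ℕ} (c : Cfg n) : IsProb (mu c) := by
  classical
  have hG : (0 : ℝ) < c.G.card := by
    exact_mod_cast c.ne.card_pos
  refine ⟨fun x => ?_, ?_⟩
  · unfold mu; split_ifs
    · positivity
    · exact le_rfl
  · haveI : NeZero (3 ^ (2 * n)) := ⟨pow_ne_zero _ (by norm_num)⟩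
    rw [Fintype.sum_prod_type]
    have h1 : ∀ x : Fin (3 ^ n) × Word n, ∑ y : ZMod (3 ^ (2 * n)), mu c (x, y)
        = if x ∈ c.G then 1 / (c.G.card : ℝ) else 0 := by
      intro x
      unfold mu
      by_cases hx : x ∈ c.G
      · simp only [hx, if_true, sum_const, card_univ, ZMod.card, nsmul_eq_mul]
        push_cast
        have h3 : (3 : ℝ) ^ (2 * n) ≠ 0 := by positivity
        field_simp
      · simp [hx]
    simp_rw [h1]
    rw [sum_ite_mem, univ_inter, sum_const, nsmul_eq_mul]
    field_simp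

private theorem lam1_cell {n k : ℕ} (hk : k + 1 ≤ 2 * n) (v : ZMod (3 ^ (2 * n))) :
    cell n k v = cell n (k + 1) v / 3 := by
  unfold cell
  rw [Nat.div_div_eq_div_mul, ← pow_succ]
  congr 2
  omega

theorem lam_zero {n : ℕ} (c : Cfg n) {x : Sp n} (hx : 0 < mu c x) : lam c 0 x = 0 := by
  have : NeZero (3 ^ (2 * n)) := ⟨pow_ne_zero _ (by norm_num)⟩
  unfold lam
  have hcell : ∀ v : ZMod (3 ^ (2 * n)), cell n 0 v = 0 := by
    intro v
    unfold cell
    rw [Nat.sub_zero]
    exact Nat.div_eq_of_lt (ZMod.val_lt v)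
  have h1 : pm (mu c) (fun y : Sp n => (y.2, y.1.2, cell n 0 (uu c y)))
      = pm (mu c) (fun y : Sp n => (y.2, y.1.2)) := by
    refine pm_congr fun ω ω' => ?_
    simp only [hcell, Prod.mk.injEq, and_true]
  rw [h1, pow_zero, one_mul, div_self (pm_pos (lam1_prob c).1 _ hx).ne', Real.log_one]

theorem lam_succ_le {n : ℕ} (c : Cfg n) {x : Sp n} (hx : 0 < mu c x) {k : ℕ}
    (hk : k + 1 ≤ 2 * n) : lam c (k + 1) x ≤ lam c k x + Real.log 3 := by
  have hμ := lam1_prob c
  unfold lam
  have h1 := pm_pos hμ.1 (fun y : Sp n => (y.2, y.1.2, cell n (k + 1) (uu c y))) hx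
  have h2 := pm_pos hμ.1 (fun y : Sp n => (y.2, y.1.2, cell n k (uu c y))) hx
  have h3 := pm_pos hμ.1 (fun y : Sp n => (y.2, y.1.2)) hx
  have h4 : pm (mu c) (fun y : Sp n => (y.2, y.1.2, cell n (k + 1) (uu c y))) x
      ≤ pm (mu c) (fun y : Sp n => (y.2, y.1.2, cell n k (uu c y))) x := by
    refine pm_anti hμ.1 (fun ω ω' h => ?_) x
    simp only [Prod.mk.injEq] at h ⊢
    refine ⟨h.1, h.2.1, ?_⟩
    rw [lam1_cell hk, lam1_cell hk, h.2.2]
  rw [← Real.log_mul (by positivity) (by norm_num)]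
  refine Real.log_le_log (by positivity) ?_
  rw [pow_succ]
  have h5 : (3 : ℝ) ^ k * 3 * pm (mu c) (fun y : Sp n => (y.2, y.1.2, cell n (k + 1) (uu c y))) x
      / pm (mu c) (fun y : Sp n => (y.2, y.1.2)) x
      = (3 ^ k * 3 / pm (mu c) (fun y : Sp n => (y.2, y.1.2)) x)
        * pm (mu c) (fun y : Sp n => (y.2, y.1.2, cell n (k + 1) (uu c y))) x := by
    ring
  have h6 : (3 : ℝ) ^ k * pm (mu c) (fun y : Sp n => (y.2, y.1.2, cell n k (uu c y))) x
      / pm (mu c) (fun y : Sp n => (y.2, y.1.2)) x * 3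
      = (3 ^ k * 3 / pm (mu c) (fun y : Sp n => (y.2, y.1.2)) x)
        * pm (mu c) (fun y : Sp n => (y.2, y.1.2, cell n k (uu c y))) x := by
    ring
  rw [h5, h6]
  exact mul_le_mul_of_nonneg_left h4 (by positivity)

/-- atoms of small conditional probability -/
private theorem lam1_small {Ω α ζ : Type} [Fintype Ω] {μ : Ω → ℝ} (hμ : IsProb μ) (X : Ω → α)
    (Z : Ω → ζ) {t : ℝ} (ht : 0 ≤ t) (m : ℕ)
    (hm : ∀ ω, 0 < μ ω → ∃ F : Finset ζ, F.card ≤ m ∧ ∀ y, 0 < μ y → X y = X ω → Z y ∈ F) :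
    ex μ (fun ω => ind (pm μ (fun y => (X y, Z y)) ω < t * pm μ X ω)) ≤ m * t := by
  classical
  rw [← ex_ce hμ.1 X]
  rw [← ex_const hμ ((m : ℝ) * t)]
  refine ex_mono hμ.1 fun ω hω => ?_
  obtain ⟨F, hFm, hF⟩ := hm ω hω
  have hP := pm_pos hμ.1 X hω
  unfold ce
  rw [div_le_iff₀ hP]
  set f : Ω → ℝ := fun y => ind (pm μ (fun y => (X y, Z y)) y < t * pm μ X y) with hf
  have h1 : ∑ y, μ y * ind (X y = X ω) * f y
      ≤ ∑ y, ∑ z ∈ F, μ y * ind (X y = X ω) * ind (Z y = z) * f y := by
    refine sum_le_sum fun y _ => ?_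
    by_cases hy : X y = X ω
    · rcases (hμ.1 y).eq_or_lt with h0 | h0
      · rw [← h0]; simp
      · have h2 := hF y h0 hy
        have h3 := single_le_sum (f := fun z => μ y * ind (X y = X ω) * ind (Z y = z) * f y)
          (fun z _ => mul_nonneg (mul_nonneg (mul_nonneg h0.le (ind_nonneg _)) (ind_nonneg _))
            (ind_nonneg _)) h2
        refine le_trans (le_of_eq ?_) h3
        rw [ind_of (rfl : Z y = Z y), mul_one]
    · rw [ind_of_not hy]; simp
  refine h1.trans ?_
  rw [sum_comm]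
  have h4 : ∀ z ∈ F, ∑ y, μ y * ind (X y = X ω) * ind (Z y = z) * f y ≤ t * pm μ X ω := by
    intro z _
    by_cases hex : ∃ y0, X y0 = X ω ∧ Z y0 = z ∧ f y0 = 1
    · obtain ⟨y0, hy1, hy2, hy3⟩ := hex
      have h5 : pm μ (fun y => (X y, Z y)) y0 < t * pm μ X y0 := by
        by_contra hc
        simp only [hf] at hy3
        rw [ind_of_not hc] at hy3
        exact zero_ne_one hy3
      rw [pm_eq hy1] at h5
      refine le_trans ?_ h5.le
      unfold pm
      refine sum_le_sum fun y _ => ?_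
      by_cases h6 : X y = X ω
      · by_cases h7 : Z y = z
        · rw [ind_of h6, ind_of h7, mul_one, mul_one,
            ind_of (show (X y, Z y) = (X y0, Z y0) by rw [h6, h7, hy1, hy2])]
          exact mul_le_mul_of_nonneg_left (ind_le_one _) (hμ.1 y)
        · rw [ind_of_not h7, mul_zero, zero_mul]
          exact mul_nonneg (hμ.1 y) (ind_nonneg _)
      · rw [ind_of_not h6, mul_zero, zero_mul, zero_mul]
        exact mul_nonneg (hμ.1 y) (ind_nonneg _)
    · rw [sum_eq_zero]
      · exact mul_nonneg ht hP.le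
      · intro y _
        by_cases h6 : X y = X ω
        · by_cases h7 : Z y = z
          · have h8 : f y = 0 := by
              by_contra hc
              refine hex ⟨y, h6, h7, ?_⟩
              simp only [hf] at hc ⊢
              by_cases h9 : pm μ (fun y => (X y, Z y)) y < t * pm μ X y
              · exact ind_of h9
              · exact absurd (ind_of_not h9) hc
            rw [h8, mul_zero]
          · rw [ind_of_not h7]; simp
        · rw [ind_of_not h6]; simp
  refine (sum_le_card_nsmul F _ _ h4).trans ?_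
  rw [nsmul_eq_mul]
  have h10 : (F.card : ℝ) ≤ m := by exact_mod_cast hFm
  calc (F.card : ℝ) * (t * pm μ X ω) ≤ m * (t * pm μ X ω) :=
        mul_le_mul_of_nonneg_right h10 (mul_nonneg ht hP.le)
    _ = m * t * pm μ X ω := by ring

/-- given the translation, few cells of level `n` are met -/
private theorem lam1_cells {n : ℕ} (c : Cfg n) (τ : ZMod (3 ^ (2 * n))) :
    ∃ F : Finset ℕ, F.card ≤ 2 * Ycard c ∧
      ∀ y : Sp n, 0 < mu c y → y.2 = τ → cell n n (uu c y) ∈ F := by
  classical
  have : NeZero (3 ^ (2 * n)) := ⟨pow_ne_zero _ (by norm_num)⟩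
  set b : ℤ := 3 ^ n with hb
  have hb0 : 0 < b := by positivity
  refine ⟨((c.G.image (fun x => yi c x / 3 ^ n)) ×ˢ ({0, 1} : Finset ℤ)).image
    (fun p => ((p.1 + (τ.val : ℤ) / b + p.2) - b * ((p.1 + (τ.val : ℤ) / b + p.2) / b)).toNat),
    ?_, ?_⟩
  · refine card_image_le.trans ?_
    rw [card_product]
    have : ({0, 1} : Finset ℤ).card = 2 := by decide
    rw [this, Ycard, mul_comm]
  · intro y hy hyτ
    have hyG : y.1 ∈ c.G := by
      by_contra hc
      unfold mu at hy
      rw [if_neg hc] at hy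
      exact lt_irrefl _ hy
    set a : ℤ := yi c y.1 with ha
    set S : ℤ := a + (τ.val : ℤ) with hS
    have hval : ((uu c y).val : ℤ) = S % (b * b) := by
      have e1 : uu c y = ((S : ℤ) : ZMod (3 ^ (2 * n))) := by
        unfold uu
        rw [hS]
        push_cast
        rw [hyτ, ZMod.natCast_zmod_val]
      rw [e1, ZMod.val_intCast]
      congr 1
      push_cast
      rw [hb, two_mul, pow_add]
    have hcell : ((cell n n (uu c y) : ℕ) : ℤ) = S / b - b * (S / b / b) := by
      unfold cell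
      have e2 : 2 * n - n = n := by omega
      rw [e2]
      push_cast
      rw [hval, ← hb]
      have e3 : S / b = b * (S / (b * b)) + S % (b * b) / b := by
        have e4 : S = S % (b * b) + b * (b * (S / (b * b))) := by
          have := Int.emod_add_mul_ediv S (b * b)
          rw [mul_assoc] at this
          exact this.symm
        have e5 : (S % (b * b) + b * (b * (S / (b * b)))) / b
            = S % (b * b) / b + b * (S / (b * b)) := Int.add_mul_ediv_left _ _ hb0.ne'
        rw [← e4] at e5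
        rw [e5, add_comm]
      rw [Int.ediv_ediv_of_nonneg hb0.le]
      linarith
    set δ : ℤ := S / b - a / b - (τ.val : ℤ) / b with hδ
    have ha1 := Int.emod_add_mul_ediv a b
    have ha2 := Int.emod_nonneg a hb0.ne'
    have ha3 := Int.emod_lt_of_pos a hb0
    have ht1 := Int.emod_add_mul_ediv (τ.val : ℤ) b
    have ht2 := Int.emod_nonneg (τ.val : ℤ) hb0.ne'
    have ht3 := Int.emod_lt_of_pos (τ.val : ℤ) hb0
    have hlo : a / b + (τ.val : ℤ) / b ≤ S / b := by
      refine Int.le_ediv_of_mul_le hb0 ?_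
      rw [hS]
      nlinarith
    have hhi : S / b < a / b + (τ.val : ℤ) / b + 2 := by
      refine Int.ediv_lt_of_lt_mul hb0 ?_
      rw [hS]
      nlinarith
    have hδ01 : δ = 0 ∨ δ = 1 := by omega
    refine mem_image.2 ⟨(a / b, δ), mem_product.2 ⟨mem_image.2 ⟨y.1, hyG, ?_⟩, ?_⟩, ?_⟩
    · simp only [ha, hb]
    · simp only [mem_insert, mem_singleton]
      exact hδ01
    · simp only []
      have e6 : a / b + (τ.val : ℤ) / b + δ = S / b := by rw [hδ]; ring
      rw [e6, ← hcell, Int.toNat_natCast]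

theorem lam_small {n : ℕ} (c : Cfg n) (y : ℝ) :
    ex (mu c) (fun x => ind (lam c n x < y)) ≤ 2 * Ycard c / 3 ^ n * Real.exp y := by
  have hμ := lam1_prob c
  have h1 : ex (mu c) (fun x => ind (lam c n x < y))
      = ex (mu c) (fun x => ind (pm (mu c) (fun y => ((fun y : Sp n => (y.2, y.1.2)) y,
          (fun y : Sp n => cell n n (uu c y)) y)) x
            < Real.exp y / 3 ^ n * pm (mu c) (fun y : Sp n => (y.2, y.1.2)) x)) := by
    refine ex_congr hμ.1 fun x hx => ?_
    refine ind_congr ?_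
    have h2 : pm (mu c) (fun y : Sp n => (y.2, y.1.2, cell n n (uu c y)))
        = pm (mu c) (fun y => ((fun y : Sp n => (y.2, y.1.2)) y,
          (fun y : Sp n => cell n n (uu c y)) y)) := by
      refine pm_congr fun ω ω' => ?_
      simp only [Prod.mk.injEq, and_assoc]
    unfold lam
    rw [h2]
    have h3 := pm_pos hμ.1 (fun y => ((fun y : Sp n => (y.2, y.1.2)) y,
          (fun y : Sp n => cell n n (uu c y)) y)) hx
    have h4 := pm_pos hμ.1 (fun y : Sp n => (y.2, y.1.2)) hx
    rw [Real.log_lt_iff_lt_exp (by positivity), div_lt_iff₀ h4, div_mul_eq_mul_div,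
      lt_div_iff₀ (by positivity), mul_comm (pm _ _ _)]
  rw [h1]
  refine (lam1_small hμ (fun y : Sp n => (y.2, y.1.2)) (fun y : Sp n => cell n n (uu c y))
    (t := Real.exp y / 3 ^ n) (by positivity) (2 * Ycard c) ?_).trans (le_of_eq ?_)
  · intro ω _
    obtain ⟨F, hF1, hF2⟩ := lam1_cells c ω.2
    refine ⟨F, hF1, fun y' hy' h => hF2 y' hy' ?_⟩
    exact (Prod.mk.inj h).1
  · push_cast
    ring

theorem not_typ {n : ℕ} (c : Cfg n) (hn : 1 ≤ n) :
    ex (mu c) (fun x => ind (¬ typ c x)) ≤ 1 / n := by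
  classical
  have hμ := lam1_prob c
  have hn0 : (0 : ℝ) < n := by exact_mod_cast hn
  have h1 : ex (mu c) (fun x => ind (¬ typ c x))
      = ex (mu c) (fun x => ind (pm (mu c) (fun y => ((fun _ : Sp n => ()) y,
          (fun y : Sp n => y.1.2) y)) x
            < 1 / ((n : ℝ) * 2 ^ n) * pm (mu c) (fun _ : Sp n => ()) x)) := by
    refine ex_congr hμ.1 fun x hx => ?_
    refine ind_congr ?_
    have h2 : pm (mu c) (fun y : Sp n => y.1.2)
        = pm (mu c) (fun y => ((fun _ : Sp n => ()) y, (fun y : Sp n => y.1.2) y)) := by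
      refine pm_congr fun ω ω' => ?_
      simp only [Prod.mk.injEq, true_and]
    have h3 : pm (mu c) (fun _ : Sp n => ()) x = 1 := by
      unfold pm
      rw [← hμ.2]
      refine sum_congr rfl fun y _ => ?_
      rw [ind_of rfl, mul_one]
    unfold typ
    rw [h2, h3, mul_one, not_le]
  rw [h1]
  refine (lam1_small hμ (fun _ : Sp n => ()) (fun y : Sp n => y.1.2)
    (t := 1 / ((n : ℝ) * 2 ^ n)) (by positivity) (2 ^ n) ?_).trans (le_of_eq ?_)
  · intro ω _
    refine ⟨univ, ?_, fun y _ _ => mem_univ _⟩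
    rw [card_univ, Fintype.card_fun, Fintype.card_bool, Fintype.card_fin]
  · push_cast
    field_simp

end Pool.Agent.helper32.Cant
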