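import Pool.Agent.helper30.Cant.LAM1

set_option autoImplicit false

/-! # module LAM2: one step of the logarithmic density -/

namespace Pool.Agent.helper32.Cant

open Finset

private theorem lam2_prob {n : ℕ} (c : Cfg n) : IsProb (mu c) := by
  classical
  have hG : (0 : ℝ) < c.G.card := by
    exact_mod_cast c.ne.card_pos
  refine ⟨fun x => ?_, ?_⟩
  · unfold mu; split_ifs
    · positivity
    · exact le_rfl
  · have : NeZero (3 ^ (2 * n)) := ⟨pow_ne_zero _ (by norm_num)⟩
    rw [Fintype.sum_prod_type]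
    have h1 : ∀ x : Fin (3 ^ n) × Word n, ∑ y : ZMod (3 ^ (2 * n)), mu c (x, y)
        = if x ∈ c.G then 1 / (c.G.card : ℝ) else 0 := by
      intro x
      unfold mu
      by_cases hx : x ∈ c.G
      · simp only [hx, if_true, sum_const, card_univ, ZMod.card, nsmul_eq_mul]
        push_cast
        have h3 : (3 : ℝ) ^ (2 * n) ≠ 0 := by positivity
        field_simp
      · simp [hx]
    simp_rw [h1]
    rw [sum_ite_mem, univ_inter, sum_const, nsmul_eq_mul]
    field_simp

private theorem lam2_cell {n k : ℕ} (hk : k + 1 ≤ 2 * n) (v : ZMod (3 ^ (2 * n))) :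
    cell n k v = cell n (k + 1) v / 3 := by
  unfold cell
  rw [Nat.div_div_eq_div_mul, ← pow_succ]
  congr 2
  omega

private theorem lam2_cell_ref {n : ℕ} (k d : ℕ) (hk : k + d ≤ 2 * n) (v v' : ZMod (3 ^ (2 * n)))
    (h : cell n (k + d) v = cell n (k + d) v') : cell n k v = cell n k v' := by
  induction d with
  | zero => exact h
  | succ d ih =>
    refine ih (by omega) ?_
    rw [lam2_cell (by omega : k + d + 1 ≤ 2 * n), lam2_cell (by omega : k + d + 1 ≤ 2 * n)]
    have h' : cell n (k + d + 1) v = cell n (k + d + 1) v' := h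
    rw [h']

private theorem lam2_cell_lt {n k : ℕ} (hk : k ≤ 2 * n) (v : ZMod (3 ^ (2 * n))) :
    cell n k v < 3 ^ k := by
  have : NeZero (3 ^ (2 * n)) := ⟨pow_ne_zero _ (by norm_num)⟩
  unfold cell
  rw [Nat.div_lt_iff_lt_mul (by positivity), ← pow_add]
  have h : k + (2 * n - k) = 2 * n := by omega
  rw [h]
  exact ZMod.val_lt v

/-- `q |log (3 q)| ≤ 2 |q - 1/3|` on `[0,1]` -/
private theorem lam2_log {q : ℝ} (h0 : 0 ≤ q) (h1 : q ≤ 1) :
    q * |Real.log (3 * q)| ≤ 2 * |q - 1 / 3| := by
  rcases h0.eq_or_lt with h | h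
  · rw [← h]; simp
  · have hq : 0 < 3 * q := by linarith
    rcases le_or_gt q (1 / 3) with h2 | h2
    · have h3 : Real.log (3 * q) ≤ 0 := Real.log_nonpos hq.le (by linarith)
      rw [abs_of_nonpos h3, abs_of_nonpos (by linarith)]
      have h4 := Real.one_sub_inv_le_log_of_pos hq
      have h5 : q * (3 * q)⁻¹ = 1 / 3 := by field_simp
      nlinarith
    · have h3 : 0 ≤ Real.log (3 * q) := Real.log_nonneg (by linarith)
      rw [abs_of_nonneg h3, abs_of_pos (by linarith)]
      rcases le_or_gt q (2 / 3) with h4 | h4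
      · have h5 := Real.log_le_sub_one_of_pos hq
        nlinarith
      · have h5 : Real.log (3 * q) = Real.log 2 + Real.log (3 * q / 2) := by
          rw [← Real.log_mul (by norm_num) (by positivity)]
          congr 1; ring
        have h6 := Real.log_le_sub_one_of_pos (show 0 < 3 * q / 2 by positivity)
        have h7 := Real.log_two_lt_d9
        rw [h5]
        have h8 : Real.log 2 + Real.log (3 * q / 2) ≤ 3 * q / 2 - 3068 / 10000 := by linarith
        have h9 : q * (Real.log 2 + Real.log (3 * q / 2)) ≤ q * (3 * q / 2 - 3068 / 10000) :=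
          mul_le_mul_of_nonneg_left h8 h0
        nlinarith

/-- deviation from the uniform law on three points -/
private theorem lam2_three (a b d : ℝ) (h : a + b + d = 1) :
    |a - 1 / 3| + |b - 1 / 3| + |d - 1 / 3| ≤ 4 / 3 * (|a - b| + |b - d|) := by
  have h1 : a - 1 / 3 = (2 * (a - b) + (b - d)) / 3 := by linarith
  have h2 : b - 1 / 3 = (-(a - b) + (b - d)) / 3 := by linarith
  have h3 : d - 1 / 3 = (-(a - b) - 2 * (b - d)) / 3 := by linarith
  rw [h1, h2, h3]
  have e1 : |(2 * (a - b) + (b - d)) / 3| ≤ (2 * |a - b| + |b - d|) / 3 := by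
    rw [abs_div, abs_of_pos (by norm_num : (0 : ℝ) < 3)]
    have := abs_add_le (2 * (a - b)) (b - d)
    rw [abs_mul, abs_of_pos (by norm_num : (0 : ℝ) < 2)] at this
    linarith
  have e2 : |(-(a - b) + (b - d)) / 3| ≤ (|a - b| + |b - d|) / 3 := by
    rw [abs_div, abs_of_pos (by norm_num : (0 : ℝ) < 3)]
    have := abs_add_le (-(a - b)) (b - d)
    rw [abs_neg] at this
    linarith
  have e3 : |(-(a - b) - 2 * (b - d)) / 3| ≤ (|a - b| + 2 * |b - d|) / 3 := by
    rw [abs_div, abs_of_pos (by norm_num : (0 : ℝ) < 3)]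
    have := abs_sub (-(a - b)) (2 * (b - d))
    rw [abs_neg, abs_mul, abs_of_pos (by norm_num : (0 : ℝ) < 2)] at this
    linarith
  linarith

/-- the atom of `X` intersected with `{T = t}` is an atom of `Y` -/
private theorem lam2_abs {Ω α β : Type} [Fintype Ω] {μ : Ω → ℝ} (hμ : IsProb μ) {X : Ω → α}
    {Y : Ω → β} (T : Ω → ℕ) (hXY : Ref X Y) (hTY : Ref T Y)
    (hY : ∀ ω ω', X ω = X ω' → T ω = T ω' → Y ω = Y ω') (d : Ω → ℝ) (t : ℕ) (ω : Ω) :
    ce μ X (fun y => ind (T y = t) * |ce μ Y d y|) ω
      = |ce μ X (fun y => ind (T y = t) * d y) ω| := by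
  by_cases hex : ∃ y0, X y0 = X ω ∧ T y0 = t
  · obtain ⟨y0, h1, h2⟩ := hex
    have e1 : ce μ X (fun y => ind (T y = t) * |ce μ Y d y|) ω
        = |ce μ Y d y0| * ce μ X (fun y => ind (T y = t)) ω := by
      rw [← ce_smul]
      refine ce_congr_fun hμ.1 X ω fun y _ hy => ?_
      by_cases h3 : T y = t
      · rw [ind_of h3, one_mul, mul_one, ce_eq (hY y y0 (hy.trans h1.symm) (h3.trans h2.symm))]
      · rw [ind_of_not h3, zero_mul, mul_zero]
    have e2 : ce μ X (fun y => ind (T y = t) * d y) ω
        = ce μ Y d y0 * ce μ X (fun y => ind (T y = t)) ω := by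
      rw [← ce_ce hμ.1 hXY, ← ce_smul]
      refine ce_congr_fun hμ.1 X ω fun y _ hy => ?_
      rw [ce_mul Y (g := fun y => ind (T y = t)) (fun a b hab => by rw [hTY _ _ hab])]
      by_cases h3 : T y = t
      · rw [ind_of h3, one_mul, mul_one, ce_eq (hY y y0 (hy.trans h1.symm) (h3.trans h2.symm))]
      · rw [ind_of_not h3, zero_mul, mul_zero]
    have h4 : 0 ≤ ce μ X (fun y => ind (T y = t)) ω :=
      ce_nonneg hμ.1 X ω fun _ _ _ => ind_nonneg _
    rw [e1, e2, abs_mul, abs_of_nonneg h4]
  · have h0 : ∀ g : Ω → ℝ, ce μ X (fun y => ind (T y = t) * g y) ω = 0 := by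
      intro g
      have : ce μ X (fun y => ind (T y = t) * g y) ω = ce μ X (fun y => 0 * g y) ω := by
        refine ce_congr_fun hμ.1 X ω fun y _ hy => ?_
        rw [ind_of_not (fun h => hex ⟨y, hy, h⟩)]
      rw [this, ce_smul, zero_mul]
    rw [h0, h0, abs_zero]

theorem lam_step {n : ℕ} (c : Cfg n) (ε : ℝ) {A k : ℕ} (hA : A ≤ k) (hk : k + 1 ≤ n) :
    ex (mu c) (fun x => |lam c (k + 1) x - lam c k x| * ind (Lam c ε A k x))
      ≤ 8 / 3 * ex (mu c) (fun x => Uf c (obs c (k - A) 0) k x * ind (Lam c ε A k x)) := by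
  classical
  have hμ := lam2_prob c
  have hk2 : k + 1 ≤ 2 * n := by omega
  -- observables
  set T : Sp n → ℕ := fun y => cell n k (uu c y) with hT
  set T1 : Sp n → ℕ := fun y => cell n (k + 1) (uu c y) with hT1
  set Y : Sp n → ZMod (3 ^ (2 * n)) × Word n × ℕ := fun y => (y.2, y.1.2, T y) with hYdef
  set Y1 : Sp n → ZMod (3 ^ (2 * n)) × Word n × ℕ := fun y => (y.2, y.1.2, T1 y) with hY1def
  set X := obs c (k - A) 0 with hX
  have hT01 : ∀ y, T y = T1 y / 3 := fun y => lam2_cell hk2 (uu c y)
  have hbR : ∀ y : Sp n, bR c 0 y = 1 := by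
    intro y
    unfold bR
    rw [Nat.sub_zero]
    have h1 := c.lo y.1.1
    have h2 := c.hi y.1.1
    exact Nat.div_eq_of_lt_le (by omega) (by omega)
  have hTY : Ref T Y := fun ω ω' h => (Prod.mk.inj (Prod.mk.inj h).2).2
  have hXY : Ref X Y := by
    intro ω ω' h
    have h1 := (Prod.mk.inj h).1
    have h2 := (Prod.mk.inj (Prod.mk.inj h).2).1
    have h3 := (Prod.mk.inj (Prod.mk.inj h).2).2
    simp only [hX, obs, Prod.mk.injEq, hbR, and_true]
    refine ⟨h1, h2, ?_⟩
    refine lam2_cell_ref (k - A) A (by omega) _ _ ?_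
    have e : k - A + A = k := by omega
    rw [e]
    exact h3
  have hYX : ∀ ω ω', X ω = X ω' → T ω = T ω' → Y ω = Y ω' := by
    intro ω ω' h h'
    simp only [hX, obs, Prod.mk.injEq] at h
    simp only [hYdef, Prod.mk.injEq]
    exact ⟨h.1, h.2.1, h'⟩
  -- `Lam` is `X`-measurable
  have hLamX : ∀ ω ω', X ω = X ω' → ind (Lam c ε A k ω) = ind (Lam c ε A k ω') := by
    intro ω ω' h
    simp only [hX, obs, Prod.mk.injEq] at h
    obtain ⟨ha, hb, hcc, _⟩ := h
    refine ind_congr ?_
    unfold Lam typ lam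
    have e1 : pm (mu c) (fun y : Sp n => (y.2, y.1.2, cell n (k - A) (uu c y))) ω
        = pm (mu c) (fun y : Sp n => (y.2, y.1.2, cell n (k - A) (uu c y))) ω' :=
      pm_eq (by simp only [ha, hb, hcc])
    have e2 : pm (mu c) (fun y : Sp n => (y.2, y.1.2)) ω
        = pm (mu c) (fun y : Sp n => (y.2, y.1.2)) ω' := pm_eq (by simp only [ha, hb])
    have e3 : pm (mu c) (fun y : Sp n => y.1.2) ω
        = pm (mu c) (fun y : Sp n => y.1.2) ω' := pm_eq (by simp only [hb])
    rw [e1, e2, e3]
  have hLamY : ∀ ω ω', Y ω = Y ω' → ind (Lam c ε A k ω) = ind (Lam c ε A k ω') :=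
    fun ω ω' h => hLamX ω ω' (hXY ω ω' h)
  -- the difference of the laws
  set q : ℕ → Sp n → ℝ := fun a ω => ce (mu c) Y (fun y => ind (T1 y = 3 * T y + a)) ω with hq
  set V : Sp n → ℝ := fun ω => |q 0 ω - q 1 ω| + |q 1 ω - q 2 ω| with hV
  -- the first part: one step of `lam`
  have hpart1 : ∀ ω, 0 < mu c ω →
      ce (mu c) Y (fun y => |lam c (k + 1) y - lam c k y|) ω ≤ 8 / 3 * V ω := by
    intro ω hω
    have hq0 : ∀ a, 0 ≤ q a ω := fun a => ce_nonneg hμ.1 Y ω fun _ _ _ => ind_nonneg _
    have hsum1 : ∀ y, (∑ a ∈ range 3, ind (T1 y = 3 * T y + a)) = 1 := by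
      intro y
      have h1 := hT01 y
      have h2 : T1 y % 3 < 3 := Nat.mod_lt _ (by norm_num)
      rw [sum_eq_single (T1 y % 3)]
      · exact ind_of (by omega)
      · intro b _ hb
        refine ind_of_not fun h => hb ?_
        have h3 : b < 3 := by
          by_contra hc
          have : 3 * T y + b = T1 y := h.symm
          omega
        omega
      · intro h; exact absurd (mem_range.2 h2) h
    have hqs : q 0 ω + q 1 ω + q 2 ω = 1 := by
      have h1 : q 0 ω + q 1 ω + q 2 ω = ∑ a ∈ range 3, q a ω := by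
        simp [sum_range_succ]
      rw [h1]
      simp only [hq]
      rw [← ce_sum, ← ce_const hμ.1 Y hω 1]
      exact ce_congr_fun hμ.1 Y ω fun y _ _ => hsum1 y
    have hq1 : ∀ a ∈ range 3, q a ω ≤ 1 := by
      intro a ha
      have h1 : ∑ a ∈ range 3, q a ω = 1 := by rw [← hqs]; simp [sum_range_succ]
      rw [← h1]
      exact single_le_sum (f := fun a => q a ω) (fun b _ => hq0 b) ha
    have e1 : ce (mu c) Y (fun y => |lam c (k + 1) y - lam c k y|) ω
        = ce (mu c) Y (fun y => ∑ a ∈ range 3,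
            |Real.log (3 * q a ω)| * ind (T1 y = 3 * T y + a)) ω := by
      refine ce_congr_fun hμ.1 Y ω fun y hy0 hy => ?_
      -- the value at `y`
      have h1 := hT01 y
      have h2 : T1 y % 3 < 3 := Nat.mod_lt _ (by norm_num)
      rw [sum_eq_single (T1 y % 3)]
      · rw [ind_of (by omega : T1 y = 3 * T y + T1 y % 3), mul_one]
        have p1 := pm_pos hμ.1 Y1 hy0
        have p2 := pm_pos hμ.1 Y hy0
        have p3 := pm_pos hμ.1 (fun y : Sp n => (y.2, y.1.2)) hy0
        have e2 : q (T1 y % 3) ω = pm (mu c) Y1 y / pm (mu c) Y y := by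
          simp only [hq]
          rw [← ce_eq hy]
          unfold ce
          congr 1
          unfold pm
          refine sum_congr rfl fun z _ => ?_
          rw [mul_assoc]
          congr 1
          by_cases h3 : Y z = Y y
          · have h4 : T z = T y := hTY _ _ h3
            rw [ind_of h3, one_mul]
            refine ind_congr ?_
            have h5 := (Prod.mk.inj h3).1
            have h6 := (Prod.mk.inj (Prod.mk.inj h3).2).1
            simp only [hY1def, Prod.mk.injEq]
            constructor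
            · intro h7; exact ⟨h5, h6, by omega⟩
            · intro h7; have := h7.2.2; omega
          · rw [ind_of_not h3, zero_mul, ind_of_not]
            intro h4
            refine h3 ?_
            simp only [hY1def, Prod.mk.injEq] at h4
            simp only [hYdef, Prod.mk.injEq]
            refine ⟨h4.1, h4.2.1, ?_⟩
            rw [hT01, hT01, h4.2.2]
        rw [e2]
        congr 1
        unfold lam
        have e3 : pm (mu c) (fun y : Sp n => (y.2, y.1.2, cell n (k + 1) (uu c y))) y
            = pm (mu c) Y1 y := rfl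
        have e4 : pm (mu c) (fun y : Sp n => (y.2, y.1.2, cell n k (uu c y))) y
            = pm (mu c) Y y := rfl
        rw [e3, e4, ← Real.log_div (by positivity) (by positivity), pow_succ]
        congr 1
        field_simp
      · intro b _ hb
        rw [ind_of_not, mul_zero]
        intro h
        refine hb ?_
        have h3 : b < 3 := by
          by_contra hc
          omega
        omega
      · intro h; exact absurd (mem_range.2 h2) h
    rw [e1, ce_sum]
    have e5 : ∀ a ∈ range 3, ce (mu c) Y (fun y => |Real.log (3 * q a ω)|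
        * ind (T1 y = 3 * T y + a)) ω ≤ 2 * |q a ω - 1 / 3| := by
      intro a ha
      rw [ce_smul, mul_comm]
      exact lam2_log (hq0 a) (hq1 a ha)
    refine (sum_le_sum e5).trans ?_
    have h6 := lam2_three (q 0 ω) (q 1 ω) (q 2 ω) hqs
    simp only [sum_range_succ, sum_range_zero, zero_add]
    simp only [hV]
    linarith
  -- the second part: the non-uniformity
  have hpart2 : ∀ ω, ce (mu c) X V ω ≤ Uf c X k ω := by
    intro ω
    set d : ℕ → Sp n → ℝ := fun a y => ind (T1 y = 3 * T y + a) - ind (T1 y = 3 * T y + a + 1)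
      with hd
    have hqd : ∀ a y, q a y - q (a + 1) y = ce (mu c) Y (d a) y := by
      intro a y
      simp only [hd]
      rw [ce_sub]
      rfl
    have e1 : ce (mu c) X V ω = ce (mu c) X (fun y => ∑ t ∈ range (3 ^ k), ∑ a ∈ range 2,
        ind (T y = t) * |ce (mu c) Y (d a) y|) ω := by
      refine ce_congr_fun hμ.1 X ω fun y _ _ => ?_
      have hTlt : T y < 3 ^ k := lam2_cell_lt (by omega) _
      rw [sum_eq_single (T y)]
      · simp only [sum_range_succ, sum_range_zero, zero_add]
        rw [ind_of trivial, one_mul, one_mul, ← hqd, ← hqd]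
      · intro t _ ht
        refine sum_eq_zero fun a _ => ?_
        rw [ind_of_not fun h => ht h.symm, zero_mul]
      · intro h; exact absurd (mem_range.2 hTlt) h
    rw [e1, ce_sum]
    unfold Uf
    refine sum_le_sum fun t _ => ?_
    rw [ce_sum]
    refine sum_le_sum fun a ha => ?_
    rw [lam2_abs hμ T hXY hTY hYX (d a) t ω, ← ce_sub]
    refine le_of_eq ?_
    congr 1
    refine ce_congr_fun hμ.1 X ω fun y _ _ => ?_
    have ha2 : a < 2 := mem_range.1 ha
    have h1 := hT01 y
    simp only [hd]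
    by_cases h2 : T y = t
    · rw [ind_of h2, one_mul, h2]
    · rw [ind_of_not h2, zero_mul]
      have e3 : ind (cell n (k + 1) (uu c y) = 3 * t + a) = 0 := by
        refine ind_of_not fun h => h2 ?_
        have : T1 y = 3 * t + a := h
        omega
      have e4 : ind (cell n (k + 1) (uu c y) = 3 * t + a + 1) = 0 := by
        refine ind_of_not fun h => h2 ?_
        have : T1 y = 3 * t + a + 1 := h
        omega
      rw [e3, e4, sub_zero]
  -- conclusion
  have s1 : ex (mu c) (fun x => |lam c (k + 1) x - lam c k x| * ind (Lam c ε A k x))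
      = ex (mu c) (fun x => ind (Lam c ε A k x)
        * ce (mu c) Y (fun y => |lam c (k + 1) y - lam c k y|) x) := by
    rw [ex_mul_ce hμ.1 Y (g := fun x => ind (Lam c ε A k x)) hLamY]
    exact congrArg _ (funext fun x => mul_comm _ _)
  have s2 : ex (mu c) (fun x => ind (Lam c ε A k x)
        * ce (mu c) Y (fun y => |lam c (k + 1) y - lam c k y|) x)
      ≤ ex (mu c) (fun x => 8 / 3 * (ind (Lam c ε A k x) * V x)) := by
    refine ex_mono hμ.1 fun ω hω => ?_
    have := mul_le_mul_of_nonneg_left (hpart1 ω hω) (ind_nonneg (Lam c ε A k ω))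
    linarith
  have s3 : ex (mu c) (fun x => ind (Lam c ε A k x) * V x)
      = ex (mu c) (fun x => ind (Lam c ε A k x) * ce (mu c) X V x) :=
    (ex_mul_ce hμ.1 X (g := fun x => ind (Lam c ε A k x)) hLamX V).symm
  have s4 : ex (mu c) (fun x => ind (Lam c ε A k x) * ce (mu c) X V x)
      ≤ ex (mu c) (fun x => Uf c X k x * ind (Lam c ε A k x)) := by
    refine ex_mono hμ.1 fun ω _ => ?_
    rw [mul_comm]
    exact mul_le_mul_of_nonneg_right (hpart2 ω) (ind_nonneg _)
  rw [ex_smul] at s2
  linarith

end Pool.Agent.helper32.Cant
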