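import Pool.Agent.helper32.Cant.Basic

set_option autoImplicit false

/-! # module NCS: sums of square roots of conditional probabilities -/

namespace Pool.Agent.helper32.Cant

open Finset

section ncs

variable {Ω : Type} [Fintype Ω] {α : Type}

/-- the conditional law of `b` -/
private noncomputable def ncsP (μ : Ω → ℝ) (X : Ω → α) (b : Ω → ℕ) (ω : Ω) (c : ℕ) : ℝ :=
  ce μ X (fun y => ind (b y = c)) ω

private theorem ncsP_nonneg {μ : Ω → ℝ} (hμ : IsProb μ) (X : Ω → α) (b : Ω → ℕ) (ω : Ω) (c : ℕ) :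
    0 ≤ ncsP μ X b ω c := ce_nonneg hμ.1 X ω fun _ _ _ => ind_nonneg _

private theorem ncs_sum_ind (s : Finset ℕ) (F : ℕ → ℝ) {k : ℕ} (hk : k ∈ s) :
    ∑ c ∈ s, F c * ind (k = c) = F k := by
  rw [sum_eq_single k]
  · rw [ind_of rfl, mul_one]
  · intro c _ hc
    rw [ind_of_not (fun h => hc h.symm), mul_zero]
  · intro h; exact absurd hk h

private theorem ncsP_sum {μ : Ω → ℝ} (hμ : IsProb μ) (X : Ω → α) (b : Ω → ℕ) (m a : ℕ)
    {ω : Ω} (hω : 0 < μ ω) (hb : ∀ y, X y = X ω → a ≤ b y ∧ b y < a + m) :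
    ∑ c ∈ Ico a (a + m), ncsP μ X b ω c = 1 := by
  unfold ncsP
  rw [← ce_sum, ← ce_const hμ.1 X hω 1]
  refine ce_congr_fun hμ.1 X ω fun y _ hy => ?_
  have h := hb y hy
  have := ncs_sum_ind (Ico a (a + m)) (fun _ => 1) (k := b y) (mem_Ico.2 h)
  simpa using this

private theorem ncs_ce_eq {μ : Ω → ℝ} (hμ : IsProb μ) (X : Ω → α) (b : Ω → ℕ) (m a : ℕ)
    {ω : Ω} (hb : ∀ y, X y = X ω → a ≤ b y ∧ b y < a + m) :
    ce μ X (fun y => √(pm μ X y / pm μ (fun z => (X z, b z)) y)) ω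
      = ∑ c ∈ Ico a (a + m), √(ncsP μ X b ω c) := by
  have h1 : ce μ X (fun y => √(pm μ X y / pm μ (fun z => (X z, b z)) y)) ω
      = ce μ X (fun y => ∑ c ∈ Ico a (a + m), √(1 / ncsP μ X b ω c) * ind (b y = c)) ω := by
    refine ce_congr_fun hμ.1 X ω fun y hy0 hy => ?_
    rw [ncs_sum_ind (Ico a (a + m)) (fun c => √(1 / ncsP μ X b ω c)) (mem_Ico.2 (hb y hy))]
    congr 1
    have e1 : pm μ (fun z => (X z, b z)) y
        = ∑ z, μ z * ind (X z = X ω) * ind (b z = b y) := by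
      unfold pm
      refine sum_congr rfl fun z _ => ?_
      rw [mul_assoc]
      congr 1
      by_cases h2 : X z = X ω
      · by_cases h3 : b z = b y
        · rw [ind_of h2, ind_of h3, ind_of (show (X z, b z) = (X y, b y) by rw [h2, h3, hy]), one_mul]
        · rw [ind_of_not h3, mul_zero, ind_of_not]
          intro h4
          exact h3 (Prod.mk.inj h4).2
      · rw [ind_of_not h2, zero_mul, ind_of_not]
        intro h4
        exact h2 ((Prod.mk.inj h4).1.trans hy)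
    have e2 : ncsP μ X b ω (b y) = pm μ (fun z => (X z, b z)) y / pm μ X y := by
      unfold ncsP ce
      rw [← e1, pm_eq hy]
    rw [e2, one_div_div]
  rw [h1, ce_sum]
  refine sum_congr rfl fun c _ => ?_
  rw [ce_smul]
  show √(1 / ncsP μ X b ω c) * ncsP μ X b ω c = √(ncsP μ X b ω c)
  have h0 := ncsP_nonneg hμ X b ω c
  rcases h0.eq_or_lt with h | h
  · rw [← h]; simp
  · rw [Real.sqrt_div zero_le_one, Real.sqrt_one, one_div]
    have h2 : ncsP μ X b ω c = √(ncsP μ X b ω c) * √(ncsP μ X b ω c) :=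
      (Real.mul_self_sqrt h0).symm
    have h3 : √(ncsP μ X b ω c) ≠ 0 := (Real.sqrt_pos.2 h).ne'
    nth_rewrite 2 [h2]
    rw [← mul_assoc, inv_mul_cancel₀ h3, one_mul]

private theorem ncs_cs (s : Finset ℕ) (p : ℕ → ℝ) (hp : ∀ c, 0 ≤ p c) :
    ∑ c ∈ s, √(p c) ≤ √((s.card : ℝ) * ∑ c ∈ s, p c) := by
  refine Real.le_sqrt_of_sq_le ?_
  have h := sq_sum_le_card_mul_sum_sq (s := s) (f := fun c => √(p c))
  refine h.trans (le_of_eq ?_)
  congr 1
  exact sum_congr rfl fun c _ => Real.sq_sqrt (hp c)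

theorem sqrt_sum_le {μ : Ω → ℝ} (hμ : IsProb μ) (X : Ω → α) (b : Ω → ℕ) (m a : ℕ) (hm : 3 ≤ m)
    {ω : Ω} (hω : 0 < μ ω) (hb : ∀ y, X y = X ω → a ≤ b y ∧ b y < a + m) :
    ce μ X (fun y => √(pm μ X y / pm μ (fun z => (X z, b z)) y)) ω ≤ √m := by
  rw [ncs_ce_eq hμ X b m a hb]
  refine (ncs_cs _ _ (ncsP_nonneg hμ X b ω)).trans (le_of_eq ?_)
  rw [ncsP_sum hμ X b m a hω hb, mul_one, Nat.card_Ico]
  congr 2
  omega

private theorem ncs_far {μ : Ω → ℝ} (hμ : IsProb μ) (X : Ω → α) (b : Ω → ℕ) (ω : Ω) {c c' : ℕ}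
    (h : c + 2 ≤ c') : ncsP μ X b ω c * ncsP μ X b ω c' ≤ ncf μ X b ω := by
  have h1 : ncsP μ X b ω c * ncsP μ X b ω c'
      = ce μ X (fun y => ncsP μ X b ω c' * ind (b y = c)) ω := by
    rw [ce_smul, mul_comm]
    rfl
  rw [h1]
  unfold ncf
  refine ce_mono hμ.1 X ω fun y _ _ => ?_
  by_cases hy : b y = c
  · rw [ind_of hy, mul_one]
    unfold ncsP
    refine ce_mono hμ.1 X ω fun y' _ _ => ?_
    by_cases hy' : b y' = c'
    · rw [ind_of hy', ind_of]
      left; omega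
    · rw [ind_of_not hy']; exact ind_nonneg _
  · rw [ind_of_not hy, mul_zero]
    exact ce_nonneg hμ.1 X ω fun _ _ _ => ind_nonneg _

theorem sqrt_sum_le_two {μ : Ω → ℝ} (hμ : IsProb μ) (X : Ω → α) (b : Ω → ℕ) (m a : ℕ)
    (hm : 3 ≤ m) {ω : Ω} (hω : 0 < μ ω) (hb : ∀ y, X y = X ω → a ≤ b y ∧ b y < a + m)
    (hn : ncf μ X b ω < 1 / (81 * (m : ℝ) ^ 4)) :
    ce μ X (fun y => √(pm μ X y / pm μ (fun z => (X z, b z)) y)) ω ≤ 2 := by
  classical
  rw [ncs_ce_eq hμ X b m a hb]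
  have hm0 : (0 : ℝ) < m := by
    have : 0 < m := by omega
    exact_mod_cast this
  set p : ℕ → ℝ := ncsP μ X b ω with hp
  have hp0 : ∀ c, 0 ≤ p c := ncsP_nonneg hμ X b ω
  have hp1 : ∑ c ∈ Ico a (a + m), p c = 1 := ncsP_sum hμ X b m a hω hb
  set t : ℝ := 1 / (9 * (m : ℝ) ^ 2) with ht
  have ht0 : 0 < t := by positivity
  have htt : t * t = 1 / (81 * (m : ℝ) ^ 4) := by
    rw [ht]; field_simp; norm_num
  set Big := (Ico a (a + m)).filter (fun c => t < p c) with hBig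
  have hcard : Big.card ≤ 2 := by
    rcases Big.eq_empty_or_nonempty with h | h
    · rw [h]; simp
    · set c0 := Big.min' h with hc0
      have hc0m : c0 ∈ Big := Big.min'_mem h
      have hsub : Big ⊆ {c0, c0 + 1} := by
        intro c hc
        have h1 : c0 ≤ c := Big.min'_le c hc
        by_contra hcc
        simp only [mem_insert, mem_singleton, not_or] at hcc
        have h2 : c0 + 2 ≤ c := by omega
        have h3 := ncs_far hμ X b ω h2
        have h4 : t * t < p c0 * p c :=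
          mul_lt_mul'' (mem_filter.1 hc0m).2 (mem_filter.1 hc).2 ht0.le ht0.le
        rw [htt] at h4
        linarith
      exact (card_le_card hsub).trans card_le_two
  rw [← sum_filter_add_sum_filter_not (Ico a (a + m)) (fun c => t < p c)]
  have hA : ∑ c ∈ Big, √(p c) ≤ 3 / 2 := by
    have hle : ∑ c ∈ Big, p c ≤ 1 := by
      rw [← hp1]
      exact sum_le_sum_of_subset_of_nonneg (filter_subset _ _) fun c _ _ => hp0 c
    have h0 : 0 ≤ ∑ c ∈ Big, p c := sum_nonneg fun c _ => hp0 c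
    refine (ncs_cs Big p hp0).trans ?_
    rw [Real.sqrt_le_left (by norm_num)]
    have h2 : (Big.card : ℝ) ≤ 2 := by exact_mod_cast hcard
    nlinarith
  have hB : ∑ c ∈ (Ico a (a + m)).filter (fun c => ¬ t < p c), √(p c) ≤ 1 / 2 := by
    have h1 : ∀ c ∈ (Ico a (a + m)).filter (fun c => ¬ t < p c), √(p c) ≤ 1 / (3 * (m : ℝ)) := by
      intro c hc
      have h2 : p c ≤ t := not_lt.1 (mem_filter.1 hc).2
      rw [Real.sqrt_le_left (by positivity)]
      refine h2.trans (le_of_eq ?_)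
      rw [ht]; field_simp; norm_num
    refine (sum_le_card_nsmul _ _ _ h1).trans ?_
    have h3 : (((Ico a (a + m)).filter (fun c => ¬ t < p c)).card : ℝ) ≤ m := by
      have : ((Ico a (a + m)).filter (fun c => ¬ t < p c)).card ≤ m :=
        (card_filter_le _ _).trans (by rw [Nat.card_Ico]; omega)
      exact_mod_cast this
    rw [nsmul_eq_mul]
    calc _ ≤ (m : ℝ) * (1 / (3 * (m : ℝ))) :=
          mul_le_mul_of_nonneg_right h3 (by positivity)
      _ = 1 / 3 := by field_simp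
      _ ≤ 1 / 2 := by norm_num
  linarith

end ncs

end Pool.Agent.helper32.Cant
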