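import Pool.Agent.helper32.Cant.Basic

set_option autoImplicit false

/-! # module STOP: optional stopping -/

namespace Pool.Agent.helper32.Cant

open Finset

section stopm

variable {Ω : Type} [Fintype Ω] {α : Type}

omit [Fintype Ω] in
private theorem stop_ref {X : ℕ → Ω → α} {L : ℕ} (hX : ∀ l < L, Ref (X l) (X (l + 1)))
    {a b : ℕ} (hab : a ≤ b) (hb : b ≤ L) : Ref (X a) (X b) := by
  induction b, hab using Nat.le_induction with
  | base => intro ω ω' h; exact h
  | succ n hn ih =>
    intro ω ω' h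
    exact ih (by omega) ω ω' (hX n (by omega) ω ω' h)

/-- optional stopping -/
theorem stop_bound {μ : Ω → ℝ} (hμ : IsProb μ) (L N : ℕ) (X : ℕ → Ω → α)
    (hX : ∀ l < L, Ref (X l) (X (l + 1))) (I : ℕ → Ω → ℝ) (hI : ∀ l ω, I l ω = 0 ∨ I l ω = 1)
    (hIm : ∀ l ≤ L, ∀ ω ω', X l ω = X l ω' → I l ω = I l ω')
    (U : ℕ → Ω → ℝ) (hU0 : ∀ l ω, 0 ≤ U l ω) (hU2 : ∀ l ω, U l ω ≤ 2)
    (hUm : ∀ l ≤ L, ∀ ω ω', X l ω = X l ω' → U l ω = U l ω')
    (hUs : ∀ l < L, ∀ ω, 0 < μ ω → U l ω ≤ ce μ (X l) (U (l + 1)) ω)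
    (S : Ω → Prop) (hS : ∀ ω ω', X 0 ω = X 0 ω' → (S ω ↔ S ω')) :
    N * (ex μ (fun ω => U 0 ω * ind (S ω))
        - 2 * ex μ (fun ω => ind (S ω ∧ ∑ l ∈ range L, I l ω < N)))
      ≤ ex μ (fun ω => ∑ l ∈ range L, I l ω * U l ω * ind (S ω)) := by
  classical
  set i : ℕ → Ω → ℕ := fun l ω => if I l ω = 0 then 0 else 1 with hi
  set J : ℕ → Ω → ℕ := fun l ω => ∑ j ∈ range l, i j ω with hJ
  have hiI : ∀ l ω, (i l ω : ℝ) = I l ω := by
    intro l ω
    simp only [hi]
    rcases hI l ω with h | h <;> simp [h]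
  have hJI : ∀ l ω, (J l ω : ℝ) = ∑ j ∈ range l, I j ω := by
    intro l ω
    simp only [hJ]
    push_cast
    exact sum_congr rfl fun j _ => hiI j ω
  have hJs : ∀ l ω, J (l + 1) ω = J l ω + i l ω := by
    intro l ω
    simp only [hJ, sum_range_succ]
  have hJm : ∀ l < L, ∀ ω ω', X l ω = X l ω' → J (l + 1) ω = J (l + 1) ω' := by
    intro l hl ω ω' h
    refine sum_congr rfl fun j hj => ?_
    have hjl : j < l + 1 := mem_range.1 hj
    have e1 : X j ω = X j ω' := stop_ref hX (by omega : j ≤ l) hl.le ω ω' h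
    simp only [hi]
    rw [hIm j (by omega) ω ω' e1]
  -- the claim for one `r`
  have hclaim : ∀ r : ℕ, ∀ m ≤ L, ex μ (fun ω => U 0 ω * ind (S ω))
      ≤ ex μ (fun ω => ∑ l ∈ range m, I l ω * U l ω * ind (S ω) * ind (J l ω = r))
        + ex μ (fun ω => U m ω * ind (J m ω ≤ r) * ind (S ω)) := by
    intro r m
    induction m with
    | zero =>
      intro _
      rw [← ex_add]
      refine ex_mono hμ.1 fun ω _ => ?_
      have h1 : J 0 ω ≤ r := by simp [hJ]
      rw [ind_of h1]
      simp
    | succ m ih =>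
      intro hm
      have hmL : m < L := by omega
      refine (ih hmL.le).trans ?_
      have e1 : ex μ (fun ω => ∑ l ∈ range (m + 1), I l ω * U l ω * ind (S ω) * ind (J l ω = r))
          = ex μ (fun ω => ∑ l ∈ range m, I l ω * U l ω * ind (S ω) * ind (J l ω = r))
            + ex μ (fun ω => I m ω * U m ω * ind (S ω) * ind (J m ω = r)) := by
        rw [← ex_add]
        refine congrArg _ (funext fun ω => ?_)
        rw [sum_range_succ]
      have e2 : ex μ (fun ω => U m ω * ind (J m ω ≤ r) * ind (S ω))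
          = ex μ (fun ω => I m ω * U m ω * ind (S ω) * ind (J m ω = r))
            + ex μ (fun ω => (ind (J (m + 1) ω ≤ r) * ind (S ω)) * U m ω) := by
        rw [← ex_add]
        refine congrArg _ (funext fun ω => ?_)
        have h2 : ind (J m ω ≤ r) = I m ω * ind (J m ω = r) + ind (J (m + 1) ω ≤ r) := by
          rw [hJs]
          simp only [hi]
          rcases hI m ω with h | h
          · simp [h]
          · rw [h]
            simp only [one_ne_zero, if_false, one_mul]
            by_cases h3 : J m ω = r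
            · rw [ind_of h3, ind_of (by omega : J m ω ≤ r), ind_of_not (by omega), add_zero]
            · by_cases h4 : J m ω ≤ r
              · rw [ind_of h4, ind_of_not h3, ind_of (by omega : J m ω + 1 ≤ r), zero_add]
              · rw [ind_of_not h4, ind_of_not h3, ind_of_not (by omega : ¬ J m ω + 1 ≤ r),
                  zero_add]
        rw [h2]
        ring
      have e3 : ex μ (fun ω => (ind (J (m + 1) ω ≤ r) * ind (S ω)) * U m ω)
          ≤ ex μ (fun ω => U (m + 1) ω * ind (J (m + 1) ω ≤ r) * ind (S ω)) := by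
        have h4 : ex μ (fun ω => U (m + 1) ω * ind (J (m + 1) ω ≤ r) * ind (S ω))
            = ex μ (fun ω => (ind (J (m + 1) ω ≤ r) * ind (S ω)) * U (m + 1) ω) :=
          congrArg _ (funext fun ω => by ring)
        rw [h4, ← ex_mul_ce hμ.1 (X m) (g := fun ω => ind (J (m + 1) ω ≤ r) * ind (S ω)) ?_
          (U (m + 1))]
        · refine ex_mono hμ.1 fun ω hω => ?_
          exact mul_le_mul_of_nonneg_left (hUs m hmL ω hω)
            (mul_nonneg (ind_nonneg _) (ind_nonneg _))
        · intro ω ω' h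
          show ind (J (m + 1) ω ≤ r) * ind (S ω) = ind (J (m + 1) ω' ≤ r) * ind (S ω')
          rw [hJm m hmL ω ω' h, ind_congr (hS ω ω' (stop_ref hX (Nat.zero_le m) hmL.le ω ω' h))]
      rw [e1, e2]
      linarith
  have hfin : ∀ r < N, ex μ (fun ω => U 0 ω * ind (S ω))
        - 2 * ex μ (fun ω => ind (S ω ∧ ∑ l ∈ range L, I l ω < N))
      ≤ ex μ (fun ω => ∑ l ∈ range L, I l ω * U l ω * ind (S ω) * ind (J l ω = r)) := by
    intro r hr
    have h1 := hclaim r L le_rfl
    have h2 : ex μ (fun ω => U L ω * ind (J L ω ≤ r) * ind (S ω))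
        ≤ 2 * ex μ (fun ω => ind (S ω ∧ ∑ l ∈ range L, I l ω < N)) := by
      rw [← ex_smul]
      refine ex_mono hμ.1 fun ω _ => ?_
      by_cases h3 : S ω
      · by_cases h4 : J L ω ≤ r
        · have h5 : ∑ l ∈ range L, I l ω < N := by
            rw [← hJI]
            exact_mod_cast lt_of_le_of_lt h4 hr
          rw [ind_of h3, ind_of h4, ind_of ⟨h3, h5⟩]
          have := hU2 L ω
          linarith
        · rw [ind_of_not h4]
          have := ind_nonneg (S ω ∧ ∑ l ∈ range L, I l ω < N)
          simp only [mul_zero, zero_mul]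
          linarith
      · rw [ind_of_not h3]
        have := ind_nonneg (S ω ∧ ∑ l ∈ range L, I l ω < N)
        simp only [mul_zero]
        linarith
    linarith
  calc N * (ex μ (fun ω => U 0 ω * ind (S ω))
        - 2 * ex μ (fun ω => ind (S ω ∧ ∑ l ∈ range L, I l ω < N)))
      = ∑ r ∈ range N, (ex μ (fun ω => U 0 ω * ind (S ω))
        - 2 * ex μ (fun ω => ind (S ω ∧ ∑ l ∈ range L, I l ω < N))) := by
        rw [sum_const, card_range, nsmul_eq_mul]
    _ ≤ ∑ r ∈ range N, ex μ (fun ω => ∑ l ∈ range L, I l ω * U l ω * ind (S ω)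
          * ind (J l ω = r)) := sum_le_sum fun r hr => hfin r (mem_range.1 hr)
    _ = ex μ (fun ω => ∑ r ∈ range N, ∑ l ∈ range L, I l ω * U l ω * ind (S ω)
          * ind (J l ω = r)) := (ex_sum μ _ _).symm
    _ ≤ ex μ (fun ω => ∑ l ∈ range L, I l ω * U l ω * ind (S ω)) := by
        refine ex_mono hμ.1 fun ω _ => ?_
        rw [sum_comm]
        refine sum_le_sum fun l _ => ?_
        rw [← mul_sum]
        have h0 : 0 ≤ I l ω * U l ω * ind (S ω) := by
          refine mul_nonneg (mul_nonneg ?_ (hU0 l ω)) (ind_nonneg _)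
          rcases hI l ω with h | h <;> rw [h]; norm_num
        have h1 : ∑ r ∈ range N, ind (J l ω = r) ≤ 1 := by
          by_cases hN : J l ω ∈ range N
          · rw [sum_eq_single (J l ω)]
            · rw [ind_of rfl]
            · intro b _ hb
              exact ind_of_not fun h => hb h.symm
            · intro h; exact absurd hN h
          · rw [sum_eq_zero]
            · norm_num
            · intro b hb
              exact ind_of_not fun h => hN (h ▸ hb)
        calc I l ω * U l ω * ind (S ω) * ∑ r ∈ range N, ind (J l ω = r)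
            ≤ I l ω * U l ω * ind (S ω) * 1 := mul_le_mul_of_nonneg_left h1 h0
          _ = _ := mul_one _

end stopm

end Pool.Agent.helper32.Cant
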